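import Pool.Agent.X70.Cookie3

/-!
# MP_900844_co: winning components of strict cookie-game positions

A position is a finite list of heap sizes `a 0 ≤ a 1 ≤ ... ≤ a (n-1)`.  Selecting the component
`a k ≥ 1` removes it and lowers every other positive heap by one.  We prove that for every strict
position of type N the indices of the winning components form a block of consecutive integers.
-/

namespace Pool.Agent.Results.MP_900844_co.WinningInterval

/-- One move on a multiset of heaps: the selected heap `a` is removed entirely and every other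
heap of positive size is decreased by `1`; heaps of size `0` stay at `0`
(truncated subtraction). -/
def move (s : Multiset ℕ) (a : ℕ) : Multiset ℕ := (s.erase a).map (fun x => x - 1)

theorem card_move_lt {s : Multiset ℕ} {a : ℕ} (h : a ∈ s) :
    Multiset.card (move s a) < Multiset.card s := by
  unfold move
  rw [Multiset.card_map]
  exact Multiset.card_erase_lt_of_mem h

/-- Type N: the player about to move can select a positive heap and leave a position that is
not of type N.  In particular a position without positive heaps is not of type N. -/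
def TypeN (s : Multiset ℕ) : Prop :=
  ∃ a : {a : ℕ // a ∈ s}, 1 ≤ a.1 ∧ ¬ TypeN (move s a.1)
termination_by Multiset.card s
decreasing_by exact card_move_lt a.2

/-- The multiset of heaps of the position with components `a 0, ..., a (n-1)`. -/
def position {n : ℕ} (a : Fin n → ℕ) : Multiset ℕ := Finset.univ.val.map a

/-- Strict positions: components in non-decreasing order, all at least `1`, and pairwise
distinct except that components equal to `n` may occur more than once. -/
def Strict {n : ℕ} (a : Fin n → ℕ) : Prop :=
  Monotone a ∧ (∀ k, 1 ≤ a k) ∧ ∀ k l, k ≠ l → a k = a l → a k = n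

/-- The component `a k` is winning: selecting it is legal and produces a position of type P
(that is, not of type N). -/
def Winning {n : ℕ} (a : Fin n → ℕ) (k : Fin n) : Prop :=
  1 ≤ a k ∧ ¬ TypeN (move (position a) (a k))

theorem move_eq (s : Multiset ℕ) (a : ℕ) : move s a = Pool.Agent.X70.Cookie.move s a := rfl

theorem typeN_eq : ∀ (k : ℕ) (s : Multiset ℕ), Multiset.card s ≤ k →
    (TypeN s ↔ Pool.Agent.X70.Cookie.TypeN s) := by
  intro k
  induction k with
  | zero =>
    intro s hk
    rw [TypeN, Pool.Agent.X70.Cookie.TypeN]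
    constructor
    · rintro ⟨⟨a, ha⟩, _⟩
      have : 0 < Multiset.card s := Multiset.card_pos_iff_exists_mem.mpr ⟨a, ha⟩
      omega
    · rintro ⟨⟨a, ha⟩, _⟩
      have : 0 < Multiset.card s := Multiset.card_pos_iff_exists_mem.mpr ⟨a, ha⟩
      omega
  | succ k ih =>
    intro s hk
    rw [TypeN, Pool.Agent.X70.Cookie.TypeN]
    constructor
    · rintro ⟨⟨a, ha⟩, h1, h2⟩
      refine ⟨⟨a, ha⟩, h1, ?_⟩
      have hlt := card_move_lt ha
      have e := ih (move s a) (by omega)
      intro h3
      exact h2 (e.mpr h3)
    · rintro ⟨⟨a, ha⟩, h1, h2⟩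
      refine ⟨⟨a, ha⟩, h1, ?_⟩
      have hlt := card_move_lt ha
      have e := ih (move s a) (by omega)
      intro h3
      exact h2 (e.mp h3)

theorem typeN_eq' (s : Multiset ℕ) : TypeN s ↔ Pool.Agent.X70.Cookie.TypeN s :=
  typeN_eq _ s le_rfl

theorem mem_position {n : ℕ} (a : Fin n → ℕ) (x : ℕ) : x ∈ position a ↔ ∃ k, a k = x := by
  unfold position
  simp

theorem N_position {n : ℕ} {a : Fin n → ℕ} (h : ∀ k, 1 ≤ a k) :
    Pool.Agent.X70.Cookie.N (position a) = n := by
  unfold Pool.Agent.X70.Cookie.N
  rw [Multiset.countP_eq_card.mpr]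
  · unfold position; simp
  · intro x hx
    obtain ⟨k, rfl⟩ := (mem_position a x).mp hx
    exact h k

theorem good_position {n : ℕ} {a : Fin n → ℕ} (ha : Strict a) :
    Pool.Agent.X70.Cookie.Good (position a) := by
  intro x hx hxN
  rw [N_position ha.2.1] at hxN
  by_contra hcon
  push Not at hcon
  have h2 : 2 ≤ (position a).count x := hcon
  unfold position at h2
  rw [Multiset.count_map] at h2
  have h3 : 1 < (Finset.univ.filter (fun k : Fin n => x = a k)).card := h2
  obtain ⟨k, hk, l, hl, hkl⟩ := Finset.one_lt_card.mp h3
  simp only [Finset.mem_filter, Finset.mem_univ, true_and] at hk hl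
  have := ha.2.2 k l hkl (by omega)
  omega

/-- **MP_900844_co, Q1.** For every strict position `a 0 ≤ ... ≤ a (n-1)` of type N, the indices
of the winning components form a block `{i, ..., j}` of consecutive integers. -/
theorem result (n : ℕ) (a : Fin n → ℕ) (ha : Strict a) (hN : TypeN (position a)) :
    ∃ i j : Fin n, i ≤ j ∧ ∀ k : Fin n, Winning a k ↔ i ≤ k ∧ k ≤ j := by
  classical
  have hgood := good_position ha
  have hint : ∀ k l m : Fin n, k ≤ l → l ≤ m → Winning a k → Winning a m → Winning a l := by
    intro k l m hkl hlm hk hm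
    refine ⟨ha.2.1 l, ?_⟩
    rw [typeN_eq', move_eq]
    have hk' := hk.2
    have hm' := hm.2
    rw [typeN_eq', move_eq] at hk' hm'
    exact Pool.Agent.X70.Cookie.interval hgood ((mem_position a _).mpr ⟨k, rfl⟩)
      ((mem_position a _).mpr ⟨l, rfl⟩) ((mem_position a _).mpr ⟨m, rfl⟩) (ha.2.1 k)
      (ha.1 hkl) (ha.1 hlm) hk' hm'
  have hne : (Finset.univ.filter (fun k : Fin n => Winning a k)).Nonempty := by
    rw [TypeN] at hN
    obtain ⟨⟨x, hx⟩, h1, h2⟩ := hN
    obtain ⟨k, rfl⟩ := (mem_position a x).mp hx
    exact ⟨k, by simp only [Finset.mem_filter, Finset.mem_univ, true_and]; exact ⟨h1, h2⟩⟩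
  refine ⟨_, _, Finset.min'_le_max' _ hne, ?_⟩
  intro k
  constructor
  · intro hk
    have hmem : k ∈ Finset.univ.filter (fun k : Fin n => Winning a k) := by
      simp only [Finset.mem_filter, Finset.mem_univ, true_and]; exact hk
    exact ⟨Finset.min'_le _ _ hmem, Finset.le_max' _ _ hmem⟩
  · rintro ⟨h1, h2⟩
    have hi := Finset.min'_mem _ hne
    have hj := Finset.max'_mem _ hne
    simp only [Finset.mem_filter, Finset.mem_univ, true_and] at hi hj
    exact hint _ k _ h1 h2 hi hj

end Pool.Agent.Results.MP_900844_co.WinningInterval
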